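import Mathlib
import Pool.Agent.R627.KOHeis

/-!
# Abelian pro-Lie groups as kernels of the ordinary representations of a pro-Lie group
-/

set_option autoImplicit false

namespace Pool.Agent.U955.KO

open Topology Pool.Agent.R627.KOHeis

universe u

/-- `G` is locally Euclidean.  By the theorem of Gleason, Montgomery and Zippin the Lie groups are the
locally Euclidean Hausdorff topological groups. -/
def LocallyEuclidean (G : Type u) [TopologicalSpace G] : Prop :=
  ∃ n : ℕ, Nonempty (ChartedSpace (EuclideanSpace ℝ (Fin n)) G)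

/-- `G` is a pro-Lie group: it is Hausdorff and complete, and every neighbourhood of the identity
contains a closed normal subgroup `N` such that `G ⧸ N` is a Lie group. -/
structure ProLie (G : Type u) [Group G] [TopologicalSpace G] : Prop where
  t2 : T2Space G
  complete : ∀ F : Filter G, F.NeBot →
    (∀ U ∈ 𝓝 (1 : G), ∃ S ∈ F, ∀ x ∈ S, ∀ y ∈ S, x⁻¹ * y ∈ U) → ∃ x, F ≤ 𝓝 x
  lie : ∀ U ∈ 𝓝 (1 : G), ∃ N : Subgroup G, N.Normal ∧ IsClosed (N : Set G) ∧ (N : Set G) ⊆ U ∧
    LocallyEuclidean (G ⧸ N)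

/-- a topological group with an open subgroup with charts has charts -/
lemma charts {H B Q : Type*} [TopologicalSpace H] [TopologicalSpace B] [ChartedSpace H B] [Group B]
    [TopologicalSpace Q] [Group Q] [IsTopologicalGroup Q] (k : B → Q) (hk : IsOpenEmbedding k)
    (h1 : k 1 = 1) : Nonempty (ChartedSpace H Q) := by
  classical
  have : Nonempty B := ⟨1⟩
  let c : Q → OpenPartialHomeomorph Q H := fun p =>
    (Homeomorph.mulRight p⁻¹).toOpenPartialHomeomorph.trans
      ((hk.toOpenPartialHomeomorph k).symm.trans (chartAt H (1 : B)))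
  refine ⟨{ atlas := Set.range c, chartAt := c, mem_chart_source := ?_, chart_mem_atlas := ?_ }⟩
  · intro p
    have h2 : (hk.toOpenPartialHomeomorph k).symm (1 : Q) = (1 : B) := by
      have h3 : (hk.toOpenPartialHomeomorph k).symm (k 1) = (1 : B) :=
        (hk.toOpenPartialHomeomorph k).left_inv (by simp)
      rwa [h1] at h3
    have h4 : (1 : Q) ∈ Set.range k := ⟨1, h1⟩
    simp only [c, OpenPartialHomeomorph.trans_source, Homeomorph.toOpenPartialHomeomorph_source,
      OpenPartialHomeomorph.symm_source, Set.univ_inter, Set.mem_preimage, Set.mem_inter_iff,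
      Homeomorph.toOpenPartialHomeomorph_apply, Homeomorph.coe_mulRight, mul_inv_cancel]
    refine ⟨by simpa using h4, ?_⟩
    rw [h2]
    exact mem_chart_source H (1 : B)
  · intro p
    exact ⟨p, rfl⟩

variable {A : Type u} [CommGroup A]

/-- the embedding of `A` as a homomorphism -/
noncomputable def iHom (A : Type u) [CommGroup A] : A →* Heis A where
  toFun := ι
  map_one' := rfl
  map_mul' a b := by apply Heis.ext <;> simp [ι]

lemma iHom_apply (a : A) : iHom A a = ι a := rfl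

lemma ι_comm (a : A) (x : Heis A) : ι a * x = x * ι a := by
  apply Heis.ext
  · simp [ι, mul_comm]
  · simp [ι]
  · simp [ι]

section

variable [TopologicalSpace A]

lemma continuous_ι : Continuous (ι : A → Heis A) := by
  apply continuous_into
  · exact continuous_id
  · show Continuous fun _ : A => pr (1 : Heis A)
    exact continuous_const

lemma isOpenMap_ι : IsOpenMap (ι : A → Heis A) := by
  intro V hV
  have h1 : ι '' V = {x : Heis A | x.c ∈ V} ∩ {x : Heis A | pr x = pr (1 : Heis A)} := by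
    ext x
    constructor
    · rintro ⟨a, ha, rfl⟩
      exact ⟨ha, rfl⟩
    · rintro ⟨hc, hp⟩
      refine ⟨x.c, hc, ?_⟩
      have h1 : x.e = 0 := congrArg Prod.fst hp
      have h2 : x.f = 0 := congrArg Prod.snd hp
      apply Heis.ext
      · rfl
      · exact h1.symm
      · exact h2.symm
  rw [h1]
  exact (hV.preimage continuous_c).inter ((isOpen_discrete {pr (1 : Heis A)}).preimage continuous_pr)

lemma eq_ι {x : Heis A} (hp : pr x = pr (1 : Heis A)) : x = ι x.c := by
  have h1 : x.e = 0 := congrArg Prod.fst hp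
  have h2 : x.f = 0 := congrArg Prod.snd hp
  apply Heis.ext
  · rfl
  · exact h1
  · exact h2

lemma nhds_pr [IsTopologicalGroup A] : {x : Heis A | pr x = pr (1 : Heis A)} ∈ 𝓝 (1 : Heis A) :=
  ((isOpen_discrete {pr (1 : Heis A)}).preimage continuous_pr).mem_nhds rfl

theorem complete_heis [IsTopologicalGroup A] (hA : ∀ F : Filter A, F.NeBot →
    (∀ U ∈ 𝓝 (1 : A), ∃ S ∈ F, ∀ x ∈ S, ∀ y ∈ S, x⁻¹ * y ∈ U) → ∃ x, F ≤ 𝓝 x)
    (F : Filter (Heis A)) (hF : F.NeBot)
    (hC : ∀ U ∈ 𝓝 (1 : Heis A), ∃ S ∈ F, ∀ x ∈ S, ∀ y ∈ S, x⁻¹ * y ∈ U) : ∃ x, F ≤ 𝓝 x := by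
  obtain ⟨S, hS, hSS⟩ := hC _ nhds_pr
  obtain ⟨s, hs⟩ := hF.nonempty_of_mem hS
  obtain ⟨a, ha⟩ := hA (F.map fun y => (s⁻¹ * y).c) (hF.map _) (by
    intro V hV
    have hV' : {x : Heis A | x.c ∈ V} ∈ 𝓝 (1 : Heis A) := by
      have : ContinuousAt (fun x : Heis A => x.c) 1 := continuous_c.continuousAt
      exact this (by simpa using hV)
    obtain ⟨S', hS', hSS'⟩ := hC _ hV'
    refine ⟨(fun y => (s⁻¹ * y).c) '' (S' ∩ S), Filter.image_mem_map (Filter.inter_mem hS' hS), ?_⟩
    rintro _ ⟨y1, ⟨h1, h1'⟩, rfl⟩ _ ⟨y2, ⟨h2, h2'⟩, rfl⟩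
    have e1 := eq_ι (hSS s hs y1 h1')
    have e2 := eq_ι (hSS s hs y2 h2')
    have e3 : ι (((s⁻¹ * y1).c)⁻¹ * (s⁻¹ * y2).c) = y1⁻¹ * y2 := by
      have e4 : ι (((s⁻¹ * y1).c)⁻¹ * (s⁻¹ * y2).c) =
          (ι (s⁻¹ * y1).c)⁻¹ * ι (s⁻¹ * y2).c := by
        rw [← iHom_apply, ← iHom_apply, ← iHom_apply, map_mul, map_inv]
      rw [e4, ← e1, ← e2]
      group
    have e5 := hSS' y1 h1 y2 h2
    rw [← e3] at e5
    exact e5)
  refine ⟨s * ι a, ?_⟩
  intro W hW
  have hc : ContinuousAt (fun a' : A => s * ι a') a :=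
    (continuous_const.mul continuous_ι).continuousAt
  have h1 : {a' : A | s * ι a' ∈ W} ∈ 𝓝 a := hc hW
  have h2 : {y : Heis A | s * ι (s⁻¹ * y).c ∈ W} ∈ F := ha h1
  refine Filter.mem_of_superset (Filter.inter_mem h2 hS) ?_
  rintro y ⟨hy1, hy2⟩
  have h3 : s * ι (s⁻¹ * y).c = y := by
    rw [← eq_ι (hSS s hs y hy2)]; group
  have h4 : s * ι (s⁻¹ * y).c ∈ W := hy1
  rwa [h3] at h4

theorem prolie_heis [IsTopologicalGroup A] (hA : ProLie A) : ProLie (Heis A) := by
  have := hA.t2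
  refine ⟨inferInstance, complete_heis hA.complete, ?_⟩
  intro U hU
  have hV : ι ⁻¹' U ∈ 𝓝 (1 : A) := continuous_ι.continuousAt hU
  obtain ⟨N, -, hNc, hNU, n, ⟨hch⟩⟩ := hA.lie _ hV
  have hmem : ∀ x : Heis A, x ∈ N.map (iHom A) ↔ x.c ∈ N ∧ pr x = pr (1 : Heis A) := by
    intro x
    rw [Subgroup.mem_map]
    constructor
    · rintro ⟨a, ha, rfl⟩
      exact ⟨ha, rfl⟩
    · rintro ⟨hc, hp⟩
      exact ⟨x.c, hc, (eq_ι hp).symm⟩
  have hnorm : (N.map (iHom A)).Normal := by
    refine ⟨fun x hx g => ?_⟩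
    obtain ⟨a, ha, rfl⟩ := Subgroup.mem_map.1 hx
    rw [iHom_apply, ← ι_comm, mul_assoc, mul_inv_cancel, mul_one]
    exact Subgroup.mem_map_of_mem (iHom A) ha
  refine ⟨N.map (iHom A), hnorm, ?_, ?_, ?_⟩
  · have : ((N.map (iHom A) : Subgroup (Heis A)) : Set (Heis A)) =
        {x | x.c ∈ N} ∩ {x | pr x = pr (1 : Heis A)} := by
      ext x; exact hmem x
    rw [this]
    exact (hNc.preimage continuous_c).inter ((isClosed_discrete {pr (1 : Heis A)}).preimage continuous_pr)
  · intro x hx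
    obtain ⟨h1, h2⟩ := (hmem x).1 hx
    rw [eq_ι h2]
    exact hNU h1
  · have := hch
    refine ⟨n, charts (B := A ⧸ N) (QuotientGroup.map N (N.map (iHom A)) (iHom A)
      (Subgroup.le_comap_map _ _)) ?_ (map_one _)⟩
    refine IsOpenEmbedding.of_continuous_injective_isOpenMap ?_ ?_ ?_
    · refine (QuotientGroup.isOpenQuotientMap_mk (N := N)).isQuotientMap.continuous_iff.2 ?_
      exact QuotientGroup.continuous_mk.comp continuous_ι
    · rw [← MonoidHom.ker_eq_bot_iff, eq_bot_iff]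
      intro q hq
      induction q using QuotientGroup.induction_on with
      | H a =>
        rw [MonoidHom.mem_ker, QuotientGroup.map_mk, QuotientGroup.eq_one_iff, hmem] at hq
        rw [Subgroup.mem_bot, QuotientGroup.eq_one_iff]
        exact hq.1
    · intro V hV
      have h1 : IsOpen ((QuotientGroup.mk : A → A ⧸ N) ⁻¹' V) :=
        hV.preimage QuotientGroup.continuous_mk
      have h2 : (QuotientGroup.map N (N.map (iHom A)) (iHom A) (Subgroup.le_comap_map _ _)) '' V =
          (QuotientGroup.mk : Heis A → Heis A ⧸ N.map (iHom A)) ''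
            (ι '' ((QuotientGroup.mk : A → A ⧸ N) ⁻¹' V)) := by
        ext q
        constructor
        · rintro ⟨v, hv, rfl⟩
          induction v using QuotientGroup.induction_on with
          | H a => exact ⟨ι a, ⟨a, hv, rfl⟩, rfl⟩
        · rintro ⟨_, ⟨a, ha, rfl⟩, rfl⟩
          exact ⟨_, ha, rfl⟩
      rw [h2]
      exact QuotientGroup.isOpenMap_coe _ (isOpenMap_ι _ h1)

end

end Pool.Agent.U955.KO
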